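import Mathlib

/-!
# Convergence of the weighted canonical products `π_ω`

For a positive, continuous, nonincreasing weight `ω` on `[0,∞)` with finite moments, whose
logarithmic derivative `t ω'(t)/ω(t)` is nonincreasing for large `t`, the product
`∏ A_ω(z; z_k)` converges absolutely and uniformly on every compact set without points `z_k`
as soon as `∑ L(|z_k|) < ∞`.
-/

open MeasureTheory Set Filter Topology

namespace Pool.Agent.Results.MP_d393fc_an.WeightedProduct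

/-- `Δ_k = k ∫_0^∞ ω(t) t^{k-1} dt`, used for `k ≥ 1`. -/
noncomputable def Delta (ω : ℝ → ℝ) (k : ℕ) : ℝ :=
  (k : ℝ) * ∫ t in Ioi (0 : ℝ), ω t * t ^ (k - 1)

/-- `L(r) = ∫_r^∞ ω(t) t^{-1} dt`. -/
noncomputable def Lfun (ω : ℝ → ℝ) (r : ℝ) : ℝ := ∫ t in Ioi r, ω t / t

/-- `I_k(r) = ∫_0^r ω(t) t^{k-1} dt`, used for `k ≥ 1`. -/
noncomputable def Ifun (ω : ℝ → ℝ) (k : ℕ) (r : ℝ) : ℝ := ∫ t in Ioc (0 : ℝ) r, ω t * t ^ (k - 1)

/-- `J_k(r) = ∫_r^∞ ω(t) t^{-k-1} dt`. -/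
noncomputable def Jfun (ω : ℝ → ℝ) (k : ℕ) (r : ℝ) : ℝ := ∫ t in Ioi r, ω t / t ^ (k + 1)

/-- `W_ω(z;a) = L(|a|) - ∑_{k ≥ 1} (a^{-k} I_k(|a|) - (conj a)^{σ k} J_k(|a|)) z^k / Δ_k`.
The exponent sign `σ = -1` is the printed one, `σ = 1` the rotation invariant one. -/
noncomputable def Wfun (σ : ℤ) (ω : ℝ → ℝ) (z a : ℂ) : ℂ :=
  (Lfun ω ‖a‖ : ℂ) - ∑' k : ℕ, (a ^ (-((k + 1 : ℕ) : ℤ)) * (Ifun ω (k + 1) ‖a‖ : ℂ)
    - (starRingEnd ℂ a) ^ (σ * ((k + 1 : ℕ) : ℤ)) * (Jfun ω (k + 1) ‖a‖ : ℂ))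
      * (z ^ (k + 1) / (Delta ω (k + 1) : ℂ))

/-- `A_ω(z;a) = (1 - z/a) e^{-W_ω(z;a)}`. -/
noncomputable def Afun (σ : ℤ) (ω : ℝ → ℝ) (z a : ℂ) : ℂ :=
  (1 - z / a) * Complex.exp (-(Wfun σ ω z a))

section weight

variable {ω : ℝ → ℝ}

lemma meas (hcont : ContinuousOn ω (Ici 0)) {r : ℝ} (hr : 0 ≤ r) (f : ℝ → ℝ)
    (hf : ContinuousOn f (Ioi r)) :
    AEStronglyMeasurable (fun t => ω t * f t) (volume.restrict (Ioi r)) := by
  apply ContinuousOn.aestronglyMeasurable _ measurableSet_Ioi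
  exact (hcont.mono (fun x hx => (hr.trans (le_of_lt hx)))).mul hf

lemma integrable_pow (hmom : ∀ k : ℕ, IntegrableOn (fun t => ω t * t ^ k) (Ioi 0)) (k : ℕ)
    {r : ℝ} (hr : 0 ≤ r) : IntegrableOn (fun t => ω t * t ^ k) (Ioi r) :=
  (hmom k).mono_set (Ioi_subset_Ioi hr)

lemma integrable_L (hcont : ContinuousOn ω (Ici 0)) (hpos : ∀ t, 0 ≤ t → 0 < ω t)
    (hmom : ∀ k : ℕ, IntegrableOn (fun t => ω t * t ^ k) (Ioi 0)) {r : ℝ} (hr : 0 < r)
    (k : ℕ) : IntegrableOn (fun t => ω t / t ^ k) (Ioi r) := by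
  have h0 := (integrable_pow hmom 0 hr.le).mul_const (1 / r ^ k)
  refine Integrable.mono' h0 ?_ ?_
  · have := meas hcont hr.le (fun t => (t ^ k)⁻¹) ?_
    · simpa [div_eq_mul_inv] using this
    · intro t ht
      have ht' : (0 : ℝ) < t := hr.trans ht
      exact ((continuousAt_id.pow k).inv₀ (pow_ne_zero k ht'.ne')).continuousWithinAt
  · refine (ae_restrict_iff' measurableSet_Ioi).mpr (ae_of_all _ fun t ht => ?_)
    have ht' : (0 : ℝ) < t := hr.trans ht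
    have hω := hpos t ht'.le
    rw [Real.norm_eq_abs, abs_of_pos (by positivity)]
    have : (1 : ℝ) / t ^ k ≤ 1 / r ^ k := by
      apply one_div_le_one_div_of_le (by positivity)
      exact pow_le_pow_left₀ hr.le (le_of_lt ht) k
    calc ω t / t ^ k = ω t * (1 / t ^ k) := by ring
      _ ≤ ω t * (1 / r ^ k) := by gcongr
      _ = ω t * t ^ 0 * (1 / r ^ k) := by simp

lemma integrable_L1 (hcont : ContinuousOn ω (Ici 0)) (hpos : ∀ t, 0 ≤ t → 0 < ω t)
    (hmom : ∀ k : ℕ, IntegrableOn (fun t => ω t * t ^ k) (Ioi 0)) {r : ℝ} (hr : 0 < r) :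
    IntegrableOn (fun t => ω t / t) (Ioi r) := by
  simpa using integrable_L hcont hpos hmom hr 1

/-- `ω(M) M^k ≤ Δ_k`. -/
lemma Delta_lower (hpos : ∀ t, 0 ≤ t → 0 < ω t)
    (hanti : AntitoneOn ω (Ici 0))
    (hmom : ∀ k : ℕ, IntegrableOn (fun t => ω t * t ^ k) (Ioi 0)) (k : ℕ) {M : ℝ} (hM : 0 < M) :
    ω M * M ^ (k + 1) ≤ Delta ω (k + 1) := by
  have h1 : ∫ t in Ioc (0 : ℝ) M, ω M * t ^ k ≤ ∫ t in Ioi (0 : ℝ), ω t * t ^ k := by
    have h2 : ∫ t in Ioc (0 : ℝ) M, ω M * t ^ k ≤ ∫ t in Ioc (0 : ℝ) M, ω t * t ^ k := by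
      apply setIntegral_mono_on
      · apply Continuous.integrableOn_Ioc
        fun_prop
      · exact (hmom k).mono_set Ioc_subset_Ioi_self
      · exact measurableSet_Ioc
      · intro t ht
        have ht0 : 0 ≤ t := ht.1.le
        have := hanti (show t ∈ Ici (0 : ℝ) from ht0) (show M ∈ Ici (0 : ℝ) from hM.le) ht.2
        gcongr
    refine h2.trans ?_
    apply setIntegral_mono_set (hmom k)
    · refine (ae_restrict_iff' measurableSet_Ioi).mpr (ae_of_all _ fun t ht => ?_)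
      have ht' : (0 : ℝ) < t := ht
      have := hpos t ht'.le
      simp only [Pi.zero_apply]
      positivity
    · exact (Ioc_subset_Ioi_self).eventuallyLE
  have h3 : ∫ t in Ioc (0 : ℝ) M, ω M * t ^ k = ω M * (M ^ (k + 1) / (k + 1)) := by
    rw [integral_const_mul, ← intervalIntegral.integral_of_le hM.le, integral_pow]
    simp
  rw [h3] at h1
  unfold Delta
  simp only [Nat.add_sub_cancel]
  have hk : (0 : ℝ) < ((k + 1 : ℕ) : ℝ) := by positivity
  calc ω M * M ^ (k + 1) = ((k + 1 : ℕ) : ℝ) * (ω M * (M ^ (k + 1) / (k + 1))) := by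
        push_cast
        field_simp
    _ ≤ _ := by gcongr

lemma Delta_pos (hpos : ∀ t, 0 ≤ t → 0 < ω t)
    (hanti : AntitoneOn ω (Ici 0))
    (hmom : ∀ k : ℕ, IntegrableOn (fun t => ω t * t ^ k) (Ioi 0)) (k : ℕ) :
    0 < Delta ω (k + 1) := by
  have := Delta_lower hpos hanti hmom k (M := 1) one_pos
  have h1 := hpos 1 zero_le_one
  simp only [one_pow, mul_one] at this
  linarith

lemma summable_E (hpos : ∀ t, 0 ≤ t → 0 < ω t)
    (hanti : AntitoneOn ω (Ici 0))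
    (hmom : ∀ k : ℕ, IntegrableOn (fun t => ω t * t ^ k) (Ioi 0)) {x : ℝ} (hx : 0 ≤ x) :
    Summable (fun k : ℕ => x ^ (k + 1) / Delta ω (k + 1)) := by
  set M : ℝ := 2 * x + 1 with hMdef
  have hM : 0 < M := by positivity
  have hωM := hpos M hM.le
  have hgeo : Summable (fun k : ℕ => (1 / ω M) * ((1 / 2 : ℝ) ^ (k + 1))) :=
    ((summable_nat_add_iff 1).mpr
      (summable_geometric_of_lt_one (by norm_num : (0 : ℝ) ≤ 1 / 2) (by norm_num))).mul_left _
  refine Summable.of_nonneg_of_le (fun k => ?_) (fun k => ?_) hgeo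
  · exact div_nonneg (pow_nonneg hx _) (Delta_pos hpos hanti hmom k).le
  · have h1 := Delta_lower hpos hanti hmom k hM
    have h2 : x / M ≤ 1 / 2 := by
      rw [div_le_iff₀ hM]
      linarith
    calc x ^ (k + 1) / Delta ω (k + 1) ≤ x ^ (k + 1) / (ω M * M ^ (k + 1)) := by
          apply div_le_div_of_nonneg_left (pow_nonneg hx _) (by positivity) h1
      _ = (1 / ω M) * ((x / M) ^ (k + 1)) := by
          rw [div_pow]
          field_simp
      _ ≤ (1 / ω M) * ((1 / 2 : ℝ) ^ (k + 1)) := by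
          gcongr

lemma L_nonneg (hpos : ∀ t, 0 ≤ t → 0 < ω t) {r : ℝ} (hr : 0 < r) : 0 ≤ Lfun ω r := by
  apply setIntegral_nonneg measurableSet_Ioi
  intro t ht
  have ht' : (0 : ℝ) < t := hr.trans ht
  have := hpos t ht'.le
  positivity

lemma L_anti (hcont : ContinuousOn ω (Ici 0)) (hpos : ∀ t, 0 ≤ t → 0 < ω t)
    (hmom : ∀ k : ℕ, IntegrableOn (fun t => ω t * t ^ k) (Ioi 0)) {r s : ℝ} (hr : 0 < r)
    (hrs : r ≤ s) : Lfun ω s ≤ Lfun ω r := by
  apply setIntegral_mono_set (integrable_L1 hcont hpos hmom hr)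
  · refine (ae_restrict_iff' measurableSet_Ioi).mpr (ae_of_all _ fun t ht => ?_)
    have ht' : (0 : ℝ) < t := hr.trans ht
    have := hpos t ht'.le
    simp only [Pi.zero_apply]
    positivity
  · exact (Ioi_subset_Ioi hrs).eventuallyLE

/-- `ω(2r) ≤ 2 L(r)`. -/
lemma omega_le_L (hcont : ContinuousOn ω (Ici 0)) (hpos : ∀ t, 0 ≤ t → 0 < ω t)
    (hanti : AntitoneOn ω (Ici 0))
    (hmom : ∀ k : ℕ, IntegrableOn (fun t => ω t * t ^ k) (Ioi 0)) {r : ℝ} (hr : 0 < r) :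
    ω (2 * r) ≤ 2 * Lfun ω r := by
  have h1 : ∫ t in Ioc r (2 * r), ω t / t ≤ Lfun ω r := by
    apply setIntegral_mono_set (integrable_L1 hcont hpos hmom hr)
    · refine (ae_restrict_iff' measurableSet_Ioi).mpr (ae_of_all _ fun t ht => ?_)
      have ht' : (0 : ℝ) < t := hr.trans ht
      have := hpos t ht'.le
      simp only [Pi.zero_apply]
      positivity
    · exact (Ioc_subset_Ioi_self).eventuallyLE
  have h2 : ∫ t in Ioc r (2 * r), ω (2 * r) / (2 * r) ≤ ∫ t in Ioc r (2 * r), ω t / t := by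
    apply setIntegral_mono_on
    · exact integrableOn_const (by simp)
    · exact (integrable_L1 hcont hpos hmom hr).mono_set Ioc_subset_Ioi_self
    · exact measurableSet_Ioc
    · intro t ht
      have ht0 : 0 < t := hr.trans ht.1
      have := hanti (show t ∈ Ici (0 : ℝ) from ht0.le)
        (show 2 * r ∈ Ici (0 : ℝ) from by simp only [mem_Ici]; positivity) ht.2
      have h3 := hpos t ht0.le
      have h4 := hpos (2 * r) (by positivity)
      calc ω (2 * r) / (2 * r) ≤ ω t / (2 * r) := by gcongr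
        _ ≤ ω t / t := by
            apply div_le_div_of_nonneg_left h3.le ht0 ht.2
  have h3 : ∫ t in Ioc r (2 * r), ω (2 * r) / (2 * r) = ω (2 * r) / 2 := by
    rw [setIntegral_const]
    simp only [measureReal_def, Real.volume_Ioc, smul_eq_mul]
    rw [ENNReal.toReal_ofReal (by linarith)]
    field_simp
    ring
  linarith

lemma L_pos (hcont : ContinuousOn ω (Ici 0)) (hpos : ∀ t, 0 ≤ t → 0 < ω t)
    (hanti : AntitoneOn ω (Ici 0))
    (hmom : ∀ k : ℕ, IntegrableOn (fun t => ω t * t ^ k) (Ioi 0)) {r : ℝ} (hr : 0 < r) :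
    0 < Lfun ω r := by
  have := omega_le_L hcont hpos hanti hmom hr
  have h2 := hpos (2 * r) (by positivity)
  linarith

/-- The key monotonicity: `ω(rs)/ω(2r) ≤ ω(a₀s)/ω(2a₀)` for `T ≤ a₀ ≤ r` and `s ≥ 2`. -/
lemma key_mono (hpos : ∀ t, 0 ≤ t → 0 < ω t) {T : ℝ} (hT : 0 < T)
    (hd : ∀ t ≥ T, DifferentiableAt ℝ ω t)
    (hreg : AntitoneOn (fun t => t * deriv ω t / ω t) (Ici T))
    {a₀ r s : ℝ} (ha : T ≤ a₀) (har : a₀ ≤ r) (hs : 2 ≤ s) :
    ω (r * s) * ω (2 * a₀) ≤ ω (a₀ * s) * ω (2 * r) := by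
  have ha0 : 0 < a₀ := hT.trans_le ha
  have hr0 : 0 < r := ha0.trans_le har
  have hs0 : 0 < s := by linarith
  set h : ℝ → ℝ := fun x => Real.log (ω (x * s)) - Real.log (ω (x * 2)) with hh
  have hderiv : ∀ x, a₀ ≤ x → HasDerivAt h
      ((deriv ω (x * s) * s) / ω (x * s) - (deriv ω (x * 2) * 2) / ω (x * 2)) x := by
    intro x hx
    have hx0 : 0 < x := ha0.trans_le hx
    have h1 : HasDerivAt (fun y : ℝ => ω (y * s)) (deriv ω (x * s) * s) x := by
      have hd1 : HasDerivAt ω (deriv ω (x * s)) (x * s) := by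
        apply (hd (x * s) _).hasDerivAt
        nlinarith
      have := hd1.comp x ((hasDerivAt_id x).mul_const s)
      simpa [Function.comp_def] using this
    have h2 : HasDerivAt (fun y : ℝ => ω (y * 2)) (deriv ω (x * 2) * 2) x := by
      have hd1 : HasDerivAt ω (deriv ω (x * 2)) (x * 2) := by
        apply (hd (x * 2) _).hasDerivAt
        nlinarith
      have := hd1.comp x ((hasDerivAt_id x).mul_const 2)
      simpa [Function.comp_def] using this
    have h1' := h1.log (hpos _ (by positivity)).ne'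
    have h2' := h2.log (hpos _ (by positivity)).ne'
    exact h1'.sub h2'
  have hanti : AntitoneOn h (Ici a₀) := by
    apply antitoneOn_of_deriv_nonpos (convex_Ici a₀)
    · intro x hx
      exact (hderiv x hx).continuousAt.continuousWithinAt
    · intro x hx
      rw [interior_Ici] at hx
      exact (hderiv x (le_of_lt hx)).differentiableAt.differentiableWithinAt
    · intro x hx
      rw [interior_Ici] at hx
      have hx' : a₀ ≤ x := le_of_lt hx
      have hx0 : 0 < x := ha0.trans_le hx'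
      rw [(hderiv x hx').deriv]
      have hmon := hreg (show x * 2 ∈ Ici T from by simp only [mem_Ici]; nlinarith)
        (show x * s ∈ Ici T from by simp only [mem_Ici]; nlinarith)
        (show x * 2 ≤ x * s by gcongr)
      simp only at hmon
      have e1 : x * s * deriv ω (x * s) / ω (x * s) = x * ((deriv ω (x * s) * s) / ω (x * s)) := by
        ring
      have e2 : x * 2 * deriv ω (x * 2) / ω (x * 2) = x * ((deriv ω (x * 2) * 2) / ω (x * 2)) := by
        ring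
      rw [e1, e2] at hmon
      have := le_of_mul_le_mul_left hmon hx0
      linarith
  have hfin := hanti (show a₀ ∈ Ici a₀ from self_mem_Ici) (show r ∈ Ici a₀ from har) har
  simp only [hh] at hfin
  have p1 := hpos (r * s) (by positivity)
  have p2 := hpos (r * 2) (by positivity)
  have p3 := hpos (a₀ * s) (by positivity)
  have p4 := hpos (a₀ * 2) (by positivity)
  have : Real.log (ω (r * s) * ω (a₀ * 2)) ≤ Real.log (ω (a₀ * s) * ω (r * 2)) := by
    rw [Real.log_mul p1.ne' p4.ne', Real.log_mul p3.ne' p2.ne']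
    linarith
  have := (Real.log_le_log_iff (by positivity) (by positivity)).mp this
  rw [mul_comm 2 a₀, mul_comm 2 r]
  exact this

/-- Bound for `∫_r^∞ ω(t) t^k dt`. -/
lemma Q_bound (hcont : ContinuousOn ω (Ici 0)) (hpos : ∀ t, 0 ≤ t → 0 < ω t)
    (hanti : AntitoneOn ω (Ici 0))
    (hmom : ∀ k : ℕ, IntegrableOn (fun t => ω t * t ^ k) (Ioi 0)) {T : ℝ} (hT : 0 < T)
    (hd : ∀ t ≥ T, DifferentiableAt ℝ ω t)
    (hreg : AntitoneOn (fun t => t * deriv ω t / ω t) (Ici T))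
    {a₀ r : ℝ} (ha : T ≤ a₀) (har : a₀ ≤ r) (k : ℕ) :
    ∫ t in Ioi r, ω t * t ^ k ≤ Lfun ω r * r ^ (k + 1) *
      (2 ^ (k + 1) + (2 / ω (2 * a₀)) * (Delta ω (k + 1) / a₀ ^ (k + 1))) := by
  have ha0 : 0 < a₀ := hT.trans_le ha
  have hr0 : 0 < r := ha0.trans_le har
  have hω2 := hpos (2 * a₀) (by positivity)
  have hω2r := hpos (2 * r) (by positivity)
  have hsplit : ∫ t in Ioi r, ω t * t ^ k =
      (∫ t in Ioc r (2 * r), ω t * t ^ k) + ∫ t in Ioi (2 * r), ω t * t ^ k := by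
    rw [← setIntegral_union (Ioc_disjoint_Ioi le_rfl) measurableSet_Ioi
      ((integrable_pow hmom k hr0.le).mono_set Ioc_subset_Ioi_self)
      (integrable_pow hmom k (by positivity)), Ioc_union_Ioi_eq_Ioi (by linarith)]
  have h1 : ∫ t in Ioc r (2 * r), ω t * t ^ k ≤ (2 * r) ^ (k + 1) * Lfun ω r := by
    have h2 : ∫ t in Ioc r (2 * r), ω t * t ^ k ≤
        ∫ t in Ioc r (2 * r), (2 * r) ^ (k + 1) * (ω t / t) := by
      apply setIntegral_mono_on
      · exact (integrable_pow hmom k hr0.le).mono_set Ioc_subset_Ioi_self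
      · exact ((integrable_L1 hcont hpos hmom hr0).mono_set Ioc_subset_Ioi_self).const_mul _
      · exact measurableSet_Ioc
      · intro t ht
        have ht0 : 0 < t := hr0.trans ht.1
        have h3 := hpos t ht0.le
        calc ω t * t ^ k = t ^ (k + 1) * (ω t / t) := by
              field_simp
              ring
          _ ≤ (2 * r) ^ (k + 1) * (ω t / t) := by
              have := ht.2
              gcongr
    refine h2.trans ?_
    rw [integral_const_mul]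
    apply mul_le_mul_of_nonneg_left _ (by positivity)
    apply setIntegral_mono_set (integrable_L1 hcont hpos hmom hr0)
    · refine (ae_restrict_iff' measurableSet_Ioi).mpr (ae_of_all _ fun t ht => ?_)
      have ht' : (0 : ℝ) < t := hr0.trans ht
      have := hpos t ht'.le
      simp only [Pi.zero_apply]
      positivity
    · exact (Ioc_subset_Ioi_self).eventuallyLE
  have h4 : ∫ t in Ioi (2 * r), ω t * t ^ k ≤
      (r / a₀) ^ (k + 1) * (ω (2 * r) / ω (2 * a₀)) * Delta ω (k + 1) := by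
    set b : ℝ := r / a₀ with hb
    have hb0 : 0 < b := by positivity
    have hcv := integral_comp_mul_left_Ioi (fun t => ω t * t ^ k) (2 * a₀) hb0
    have hb2 : b * (2 * a₀) = 2 * r := by
      rw [hb]; field_simp
    rw [hb2, smul_eq_mul] at hcv
    have hcv2 : ∫ t in Ioi (2 * r), ω t * t ^ k =
        b * ∫ x in Ioi (2 * a₀), ω (b * x) * (b * x) ^ k := by
      rw [hcv]; field_simp
    rw [hcv2]
    have hint : IntegrableOn (fun x => ω (b * x) * (b * x) ^ k) (Ioi (2 * a₀)) := by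
      have := (integrableOn_Ioi_comp_mul_left_iff (fun t => ω t * t ^ k) (2 * a₀) hb0).mpr
      rw [hb2] at this
      exact this (integrable_pow hmom k (by positivity))
    have h5 : ∫ x in Ioi (2 * a₀), ω (b * x) * (b * x) ^ k ≤
        ∫ x in Ioi (2 * a₀), (b ^ k * (ω (2 * r) / ω (2 * a₀))) * (ω x * x ^ k) := by
      apply setIntegral_mono_on hint
      · exact (integrable_pow hmom k (by positivity)).const_mul _
      · exact measurableSet_Ioi
      · intro x hx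
        have hx' : 2 * a₀ < x := hx
        have hx0 : 0 < x := by linarith [ha0]
        have hk := key_mono hpos hT hd hreg ha har (s := x / a₀)
          (by rw [le_div_iff₀ ha0]; exact hx'.le)
        have e1 : r * (x / a₀) = b * x := by rw [hb]; ring
        have e2 : a₀ * (x / a₀) = x := by field_simp
        rw [e1, e2] at hk
        have h6 : ω (b * x) ≤ (ω (2 * r) / ω (2 * a₀)) * ω x := by
          have h66 := (le_div_iff₀ hω2).mpr hk
          calc ω (b * x) ≤ ω x * ω (2 * r) / ω (2 * a₀) := h66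
            _ = (ω (2 * r) / ω (2 * a₀)) * ω x := by ring
        calc ω (b * x) * (b * x) ^ k ≤ ((ω (2 * r) / ω (2 * a₀)) * ω x) * (b * x) ^ k := by
              gcongr
          _ = (b ^ k * (ω (2 * r) / ω (2 * a₀))) * (ω x * x ^ k) := by
              rw [mul_pow]; ring
    have h7 : ∫ x in Ioi (2 * a₀), ω x * x ^ k ≤ Delta ω (k + 1) := by
      have h8 : ∫ x in Ioi (2 * a₀), ω x * x ^ k ≤ ∫ x in Ioi (0 : ℝ), ω x * x ^ k := by
        apply setIntegral_mono_set (hmom k)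
        · refine (ae_restrict_iff' measurableSet_Ioi).mpr (ae_of_all _ fun t ht => ?_)
          have ht' : (0 : ℝ) < t := ht
          have := hpos t ht'.le
          simp only [Pi.zero_apply]
          positivity
        · exact (Ioi_subset_Ioi (by positivity)).eventuallyLE
      have h9 : 0 ≤ ∫ x in Ioi (0 : ℝ), ω x * x ^ k := by
        apply setIntegral_nonneg measurableSet_Ioi
        intro t ht
        have ht' : (0 : ℝ) < t := ht
        have := hpos t ht'.le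
        positivity
      unfold Delta
      simp only [Nat.add_sub_cancel]
      refine h8.trans ?_
      have : (1 : ℝ) ≤ ((k + 1 : ℕ) : ℝ) := by
        push_cast
        linarith [(Nat.cast_nonneg k : (0 : ℝ) ≤ k)]
      nlinarith
    calc b * ∫ x in Ioi (2 * a₀), ω (b * x) * (b * x) ^ k
        ≤ b * ∫ x in Ioi (2 * a₀), (b ^ k * (ω (2 * r) / ω (2 * a₀))) * (ω x * x ^ k) := by
          gcongr
      _ = b * ((b ^ k * (ω (2 * r) / ω (2 * a₀))) * ∫ x in Ioi (2 * a₀), ω x * x ^ k) := by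
          rw [integral_const_mul]
      _ ≤ b * ((b ^ k * (ω (2 * r) / ω (2 * a₀))) * Delta ω (k + 1)) := by
          gcongr
      _ = b ^ (k + 1) * (ω (2 * r) / ω (2 * a₀)) * Delta ω (k + 1) := by ring
  have h10 := omega_le_L hcont hpos hanti hmom hr0
  have hΔ := Delta_pos hpos hanti hmom k
  rw [hsplit]
  have h11 : (r / a₀) ^ (k + 1) * (ω (2 * r) / ω (2 * a₀)) * Delta ω (k + 1) ≤
      (r / a₀) ^ (k + 1) * ((2 * Lfun ω r) / ω (2 * a₀)) * Delta ω (k + 1) := by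
    gcongr
  calc _ ≤ (2 * r) ^ (k + 1) * Lfun ω r +
        (r / a₀) ^ (k + 1) * ((2 * Lfun ω r) / ω (2 * a₀)) * Delta ω (k + 1) :=
        add_le_add h1 (h4.trans h11)
    _ = _ := by
        rw [mul_pow, div_pow]
        field_simp

lemma J_bound (hcont : ContinuousOn ω (Ici 0)) (hpos : ∀ t, 0 ≤ t → 0 < ω t)
    (hmom : ∀ k : ℕ, IntegrableOn (fun t => ω t * t ^ k) (Ioi 0)) {r : ℝ} (hr : 0 < r)
    (k : ℕ) : Jfun ω k r ≤ Lfun ω r / r ^ k := by
  unfold Jfun Lfun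
  rw [div_eq_mul_inv, mul_comm, ← integral_const_mul]
  apply setIntegral_mono_on (integrable_L hcont hpos hmom hr (k + 1))
  · exact (integrable_L1 hcont hpos hmom hr).const_mul _
  · exact measurableSet_Ioi
  · intro t ht
    have ht' : (r : ℝ) < t := ht
    have ht0 : 0 < t := hr.trans ht'
    have := hpos t ht0.le
    have h1 : (t ^ k)⁻¹ ≤ (r ^ k)⁻¹ := by
      gcongr
    calc ω t / t ^ (k + 1) = (t ^ k)⁻¹ * (ω t / t) := by
          field_simp
          ring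
      _ ≤ (r ^ k)⁻¹ * (ω t / t) := by gcongr

lemma J_nonneg (hpos : ∀ t, 0 ≤ t → 0 < ω t) {r : ℝ} (hr : 0 < r)
    (k : ℕ) : 0 ≤ Jfun ω k r := by
  apply setIntegral_nonneg measurableSet_Ioi
  intro t ht
  have ht' : (0 : ℝ) < t := hr.trans ht
  have := hpos t ht'.le
  positivity

lemma I_nonneg (hpos : ∀ t, 0 ≤ t → 0 < ω t) {r : ℝ}
    (k : ℕ) : 0 ≤ Ifun ω k r := by
  apply setIntegral_nonneg measurableSet_Ioc
  intro t ht
  have ht' : (0 : ℝ) < t := ht.1
  have := hpos t ht'.le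
  positivity

lemma I_bound (hpos : ∀ t, 0 ≤ t → 0 < ω t)
    (hmom : ∀ k : ℕ, IntegrableOn (fun t => ω t * t ^ k) (Ioi 0)) {r : ℝ} (hr : 0 < r)
    (k : ℕ) : Ifun ω (k + 1) r ≤ r ^ k * ∫ t in Ioi (0 : ℝ), ω t * t ^ 0 := by
  unfold Ifun
  simp only [Nat.add_sub_cancel]
  have h1 : ∫ t in Ioc (0 : ℝ) r, ω t * t ^ k ≤ ∫ t in Ioc (0 : ℝ) r, r ^ k * (ω t * t ^ 0) := by
    apply setIntegral_mono_on
    · exact (hmom k).mono_set Ioc_subset_Ioi_self
    · exact ((hmom 0).mono_set Ioc_subset_Ioi_self).const_mul _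
    · exact measurableSet_Ioc
    · intro t ht
      have ht0 : 0 < t := ht.1
      have h3 := hpos t ht0.le
      have h4 : t ^ k ≤ r ^ k := pow_le_pow_left₀ ht0.le ht.2 k
      calc ω t * t ^ k ≤ ω t * r ^ k := by gcongr
        _ = r ^ k * (ω t * t ^ 0) := by simp [mul_comm]
  refine h1.trans ?_
  rw [integral_const_mul]
  apply mul_le_mul_of_nonneg_left _ (by positivity)
  apply setIntegral_mono_set (hmom 0)
  · refine (ae_restrict_iff' measurableSet_Ioi).mpr (ae_of_all _ fun t ht => ?_)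
    have ht' : (0 : ℝ) < t := ht
    have := hpos t ht'.le
    simp only [Pi.zero_apply]
    positivity
  · exact (Ioc_subset_Ioi_self).eventuallyLE

/-- `Δ_{k+1}/(k+1) = I_{k+1}(r) + ∫_r^∞ ω t^k`. -/
lemma Delta_split (hmom : ∀ k : ℕ, IntegrableOn (fun t => ω t * t ^ k) (Ioi 0)) {r : ℝ}
    (hr : 0 < r) (k : ℕ) :
    Delta ω (k + 1) = ((k + 1 : ℕ) : ℝ) * (Ifun ω (k + 1) r + ∫ t in Ioi r, ω t * t ^ k) := by
  unfold Delta Ifun
  simp only [Nat.add_sub_cancel]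
  rw [← setIntegral_union (Ioc_disjoint_Ioi le_rfl) measurableSet_Ioi
      ((hmom k).mono_set Ioc_subset_Ioi_self)
      (integrable_pow hmom k hr.le), Ioc_union_Ioi_eq_Ioi hr.le]

lemma conj_zpow_norm {a : ℂ} (ha : a ≠ 0) {σ : ℤ} (hσ : σ = 1 ∨ σ = -1) (k : ℕ) :
    ‖(starRingEnd ℂ a) ^ (σ * ((k + 1 : ℕ) : ℤ))‖ / ‖a‖ ^ (k + 1) ≤
      (max 1 (1 / ‖a‖ ^ 2)) ^ (k + 1) := by
  have hn : 0 < ‖a‖ := norm_pos_iff.mpr ha
  rw [norm_zpow, RCLike.norm_conj]
  rcases hσ with rfl | rfl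
  · rw [one_mul, zpow_natCast, div_self (by positivity)]
    exact one_le_pow₀ (le_max_left _ _)
  · rw [neg_one_mul, zpow_neg, zpow_natCast]
    have : (‖a‖ ^ (k + 1))⁻¹ / ‖a‖ ^ (k + 1) = (1 / ‖a‖ ^ 2) ^ (k + 1) := by
      rw [one_div, inv_pow, ← pow_mul, div_eq_mul_inv, ← mul_inv, ← pow_add]
      congr 2
      ring
    rw [this]
    exact pow_le_pow_left₀ (by positivity) (le_max_right _ _) _

/-- bound for the second series -/
lemma term2_bound (hcont : ContinuousOn ω (Ici 0)) (hpos : ∀ t, 0 ≤ t → 0 < ω t)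
    (hanti : AntitoneOn ω (Ici 0))
    (hmom : ∀ k : ℕ, IntegrableOn (fun t => ω t * t ^ k) (Ioi 0)) {a : ℂ} (ha : a ≠ 0) {σ : ℤ}
    (hσ : σ = 1 ∨ σ = -1) {R : ℝ} {z : ℂ} (hz : ‖z‖ ≤ R) (k : ℕ) :
    ‖(starRingEnd ℂ a) ^ (σ * ((k + 1 : ℕ) : ℤ)) * (Jfun ω (k + 1) ‖a‖ : ℂ)
      * (z ^ (k + 1) / (Delta ω (k + 1) : ℂ))‖ ≤
      Lfun ω ‖a‖ * ((R * max 1 (1 / ‖a‖ ^ 2)) ^ (k + 1) / Delta ω (k + 1)) := by
  have hn : 0 < ‖a‖ := norm_pos_iff.mpr ha
  have hR : 0 ≤ R := (norm_nonneg z).trans hz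
  have hΔ := Delta_pos hpos hanti hmom k
  have hJ0 := J_nonneg hpos hn (k + 1)
  have hJ := J_bound hcont hpos hmom hn (k + 1)
  have hL := L_nonneg hpos hn
  rw [norm_mul, norm_mul, norm_div, norm_pow, Complex.norm_real, Complex.norm_real,
    Real.norm_of_nonneg hJ0, Real.norm_of_nonneg hΔ.le]
  calc ‖(starRingEnd ℂ a) ^ (σ * ((k + 1 : ℕ) : ℤ))‖ * Jfun ω (k + 1) ‖a‖ *
        (‖z‖ ^ (k + 1) / Delta ω (k + 1))
      ≤ ‖(starRingEnd ℂ a) ^ (σ * ((k + 1 : ℕ) : ℤ))‖ * (Lfun ω ‖a‖ / ‖a‖ ^ (k + 1)) *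
        (R ^ (k + 1) / Delta ω (k + 1)) := by gcongr
    _ = Lfun ω ‖a‖ * (‖(starRingEnd ℂ a) ^ (σ * ((k + 1 : ℕ) : ℤ))‖ / ‖a‖ ^ (k + 1)) *
        (R ^ (k + 1) / Delta ω (k + 1)) := by ring
    _ ≤ Lfun ω ‖a‖ * ((max 1 (1 / ‖a‖ ^ 2)) ^ (k + 1)) *
        (R ^ (k + 1) / Delta ω (k + 1)) := by
        have := conj_zpow_norm ha hσ k
        gcongr
    _ = Lfun ω ‖a‖ * ((R * max 1 (1 / ‖a‖ ^ 2)) ^ (k + 1) / Delta ω (k + 1)) := by
        rw [mul_pow]; ring

/-- bound for the first series -/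
lemma term1_bound (hpos : ∀ t, 0 ≤ t → 0 < ω t)
    (hanti : AntitoneOn ω (Ici 0))
    (hmom : ∀ k : ℕ, IntegrableOn (fun t => ω t * t ^ k) (Ioi 0)) {a : ℂ} (ha : a ≠ 0)
    {R : ℝ} {z : ℂ} (hz : ‖z‖ ≤ R) (k : ℕ) :
    ‖a ^ (-((k + 1 : ℕ) : ℤ)) * (Ifun ω (k + 1) ‖a‖ : ℂ)
      * (z ^ (k + 1) / (Delta ω (k + 1) : ℂ))‖ ≤
      ((∫ t in Ioi (0 : ℝ), ω t * t ^ 0) / ‖a‖) * (R ^ (k + 1) / Delta ω (k + 1)) := by
  have hn : 0 < ‖a‖ := norm_pos_iff.mpr ha
  have hR : 0 ≤ R := (norm_nonneg z).trans hz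
  have hΔ := Delta_pos hpos hanti hmom k
  have hI0 : 0 ≤ Ifun ω (k + 1) ‖a‖ := I_nonneg hpos (k + 1)
  have hI := I_bound hpos hmom hn k
  have hC : 0 ≤ ∫ t in Ioi (0 : ℝ), ω t * t ^ 0 := by
    apply setIntegral_nonneg measurableSet_Ioi
    intro t ht
    have ht' : (0 : ℝ) < t := ht
    have := hpos t ht'.le
    positivity
  rw [norm_mul, norm_mul, norm_div, norm_pow, Complex.norm_real, Complex.norm_real,
    Real.norm_of_nonneg hI0, Real.norm_of_nonneg hΔ.le, norm_zpow, zpow_neg, zpow_natCast]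
  calc (‖a‖ ^ (k + 1))⁻¹ * Ifun ω (k + 1) ‖a‖ * (‖z‖ ^ (k + 1) / Delta ω (k + 1))
      ≤ (‖a‖ ^ (k + 1))⁻¹ * (‖a‖ ^ k * ∫ t in Ioi (0 : ℝ), ω t * t ^ 0) *
        (R ^ (k + 1) / Delta ω (k + 1)) := by gcongr
    _ = _ := by
        field_simp
        ring

lemma summable_max (hpos : ∀ t, 0 ≤ t → 0 < ω t)
    (hanti : AntitoneOn ω (Ici 0))
    (hmom : ∀ k : ℕ, IntegrableOn (fun t => ω t * t ^ k) (Ioi 0)) (a : ℂ) {R : ℝ} (hR : 0 ≤ R) :
    Summable (fun k : ℕ => (R * max 1 (1 / ‖a‖ ^ 2)) ^ (k + 1) / Delta ω (k + 1)) := by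
  apply summable_E hpos hanti hmom
  have : (0 : ℝ) ≤ max 1 (1 / ‖a‖ ^ 2) := le_trans zero_le_one (le_max_left _ _)
  positivity

lemma summable_term1 (hpos : ∀ t, 0 ≤ t → 0 < ω t)
    (hanti : AntitoneOn ω (Ici 0))
    (hmom : ∀ k : ℕ, IntegrableOn (fun t => ω t * t ^ k) (Ioi 0)) {a : ℂ} (ha : a ≠ 0) (z : ℂ) :
    Summable (fun k : ℕ => a ^ (-((k + 1 : ℕ) : ℤ)) * (Ifun ω (k + 1) ‖a‖ : ℂ)
      * (z ^ (k + 1) / (Delta ω (k + 1) : ℂ))) :=
  Summable.of_norm_bounded ((summable_E hpos hanti hmom (norm_nonneg z)).mul_left _)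
    (fun k => term1_bound hpos hanti hmom ha le_rfl k)

lemma summable_term2 (hcont : ContinuousOn ω (Ici 0)) (hpos : ∀ t, 0 ≤ t → 0 < ω t)
    (hanti : AntitoneOn ω (Ici 0))
    (hmom : ∀ k : ℕ, IntegrableOn (fun t => ω t * t ^ k) (Ioi 0)) {a : ℂ} (ha : a ≠ 0) {σ : ℤ}
    (hσ : σ = 1 ∨ σ = -1) (z : ℂ) :
    Summable (fun k : ℕ => (starRingEnd ℂ a) ^ (σ * ((k + 1 : ℕ) : ℤ)) *
      (Jfun ω (k + 1) ‖a‖ : ℂ) * (z ^ (k + 1) / (Delta ω (k + 1) : ℂ))) :=
  Summable.of_norm_bounded ((summable_max hpos hanti hmom a (norm_nonneg z)).mul_left _)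
    (fun k => term2_bound hcont hpos hanti hmom ha hσ le_rfl k)

/-- `W_ω(·;a)` is continuous. -/
lemma continuous_W (hcont : ContinuousOn ω (Ici 0)) (hpos : ∀ t, 0 ≤ t → 0 < ω t)
    (hanti : AntitoneOn ω (Ici 0))
    (hmom : ∀ k : ℕ, IntegrableOn (fun t => ω t * t ^ k) (Ioi 0)) {a : ℂ} (ha : a ≠ 0) {σ : ℤ}
    (hσ : σ = 1 ∨ σ = -1) : Continuous (fun z => Wfun σ ω z a) := by
  unfold Wfun
  apply continuous_const.sub
  rw [continuous_iff_continuousAt]
  intro z₀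
  have hb : Metric.ball (0 : ℂ) (‖z₀‖ + 1) ∈ 𝓝 z₀ := by
    apply Metric.isOpen_ball.mem_nhds
    simp
  apply ContinuousOn.continuousAt _ hb
  have hR : (0 : ℝ) ≤ ‖z₀‖ + 1 := by positivity
  apply continuousOn_tsum (u := fun k : ℕ =>
    ((∫ t in Ioi (0 : ℝ), ω t * t ^ 0) / ‖a‖) * ((‖z₀‖ + 1) ^ (k + 1) / Delta ω (k + 1)) +
    Lfun ω ‖a‖ * (((‖z₀‖ + 1) * max 1 (1 / ‖a‖ ^ 2)) ^ (k + 1) / Delta ω (k + 1)))
  · intro k
    fun_prop
  · exact ((summable_E hpos hanti hmom hR).mul_left _).add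
      ((summable_max hpos hanti hmom a hR).mul_left _)
  · intro k z hz
    have hz' : ‖z‖ ≤ ‖z₀‖ + 1 := by
      rw [Metric.mem_ball, dist_zero_right] at hz
      exact hz.le
    rw [sub_mul]
    exact (norm_sub_le _ _).trans (add_le_add (term1_bound hpos hanti hmom ha hz' k)
      (term2_bound hcont hpos hanti hmom ha hσ hz' k))

/-- Main estimate. -/
lemma main_bound (hcont : ContinuousOn ω (Ici 0)) (hpos : ∀ t, 0 ≤ t → 0 < ω t)
    (hanti : AntitoneOn ω (Ici 0))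
    (hmom : ∀ k : ℕ, IntegrableOn (fun t => ω t * t ^ k) (Ioi 0)) {T : ℝ} (hT : 0 < T)
    (hd : ∀ t ≥ T, DifferentiableAt ℝ ω t)
    (hreg : AntitoneOn (fun t => t * deriv ω t / ω t) (Ici T)) {σ : ℤ}
    (hσ : σ = 1 ∨ σ = -1) {R : ℝ} (hR : 0 < R) :
    ∃ a₀ > 0, ∃ C ≥ 0, ∀ a : ℂ, a₀ ≤ ‖a‖ → ∀ z : ℂ, ‖z‖ ≤ R →
      ∃ S : ℂ, Afun σ ω z a = Complex.exp S ∧ ‖S‖ ≤ C * Lfun ω ‖a‖ := by
  set a₀ : ℝ := 2 * R + T + 1 with ha₀
  have ha0 : 0 < a₀ := by positivity
  have hTa : T ≤ a₀ := by linarith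
  have hω2 := hpos (2 * a₀) (by positivity)
  -- the constant
  have hs1 := summable_E hpos hanti hmom hR.le
  have hs2 := summable_E hpos hanti hmom (x := 2 * R) (by positivity)
  have hratio : R / a₀ ≤ 1 / 2 := by
    rw [div_le_iff₀ ha0]
    linarith
  have hratio0 : 0 ≤ R / a₀ := by positivity
  have hs3 : Summable (fun k : ℕ => (R / a₀) ^ (k + 1)) :=
    (summable_nat_add_iff 1).mpr (summable_geometric_of_lt_one hratio0 (by linarith))
  have hs4 : Summable (fun k : ℕ => R ^ (k + 1) / Delta ω (k + 1) +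
      ((2 * R) ^ (k + 1) / Delta ω (k + 1) + (2 / ω (2 * a₀)) * (R / a₀) ^ (k + 1))) :=
    hs1.add (hs2.add (hs3.mul_left _))
  set C₀ : ℝ := ∑' k : ℕ, (R ^ (k + 1) / Delta ω (k + 1) +
      ((2 * R) ^ (k + 1) / Delta ω (k + 1) + (2 / ω (2 * a₀)) * (R / a₀) ^ (k + 1))) with hC₀
  have hC₀0 : 0 ≤ C₀ := by
    apply tsum_nonneg
    intro k
    have := Delta_pos hpos hanti hmom k
    positivity
  refine ⟨a₀, ha0, 1 + C₀, by positivity, ?_⟩
  intro a ha z hz
  have hn : 0 < ‖a‖ := ha0.trans_le ha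
  have hane : a ≠ 0 := norm_pos_iff.mp hn
  have hL := L_nonneg hpos hn
  set t1 : ℕ → ℂ := fun k => a ^ (-((k + 1 : ℕ) : ℤ)) * (Ifun ω (k + 1) ‖a‖ : ℂ)
      * (z ^ (k + 1) / (Delta ω (k + 1) : ℂ)) with ht1
  set t2 : ℕ → ℂ := fun k => (starRingEnd ℂ a) ^ (σ * ((k + 1 : ℕ) : ℤ)) *
      (Jfun ω (k + 1) ‖a‖ : ℂ) * (z ^ (k + 1) / (Delta ω (k + 1) : ℂ)) with ht2
  set t3 : ℕ → ℂ := fun k => a ^ (-((k + 1 : ℕ) : ℤ)) * ((∫ t in Ioi ‖a‖, ω t * t ^ k : ℝ) : ℂ)
      * (z ^ (k + 1) / (Delta ω (k + 1) : ℂ)) with ht3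
  have hS1 : Summable t1 := summable_term1 hpos hanti hmom hane z
  have hS2 : Summable t2 := summable_term2 hcont hpos hanti hmom hane hσ z
  have hza : ‖z / a‖ < 1 := by
    rw [norm_div, div_lt_one hn]
    linarith
  have hlog : HasSum (fun k : ℕ => (z / a) ^ (k + 1) / ((k + 1 : ℕ) : ℂ))
      (-Complex.log (1 - z / a)) := by
    have h := Complex.hasSum_taylorSeries_neg_log hza
    have h2 := (hasSum_nat_add_iff' 1).mpr h
    simpa using h2
  have h13 : ∀ k, t1 k + t3 k = (z / a) ^ (k + 1) / ((k + 1 : ℕ) : ℂ) := by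
    intro k
    have hΔ := Delta_pos hpos hanti hmom k
    have hsp := Delta_split hmom hn k
    have hΔc : (Delta ω (k + 1) : ℂ) ≠ 0 := by
      exact_mod_cast hΔ.ne'
    have hspc : (Delta ω (k + 1) : ℂ) = ((k + 1 : ℕ) : ℂ) * ((Ifun ω (k + 1) ‖a‖ : ℂ) +
        ((∫ t in Ioi ‖a‖, ω t * t ^ k : ℝ) : ℂ)) := by
      rw [hsp]
      push_cast
      ring
    have hkc : ((k + 1 : ℕ) : ℂ) ≠ 0 := by
      exact_mod_cast Nat.succ_ne_zero k
    simp only [ht1, ht3]
    rw [← add_mul, ← mul_add]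
    have hsum : ((Ifun ω (k + 1) ‖a‖ : ℂ) + ((∫ t in Ioi ‖a‖, ω t * t ^ k : ℝ) : ℂ)) =
        (Delta ω (k + 1) : ℂ) / ((k + 1 : ℕ) : ℂ) := by
      rw [eq_div_iff hkc, hspc]
      ring
    rw [hsum, zpow_neg, zpow_natCast, div_pow]
    field_simp
  have hS3 : HasSum t3 (-Complex.log (1 - z / a) - ∑' k, t1 k) := by
    have h := hlog.sub hS1.hasSum
    have h2 : t3 = fun k : ℕ => (z / a) ^ (k + 1) / ((k + 1 : ℕ) : ℂ) - t1 k := by
      funext k
      rw [← h13 k]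
      ring
    rw [h2]
    exact h
  have hW : Wfun σ ω z a = (Lfun ω ‖a‖ : ℂ) - (∑' k, t1 k - ∑' k, t2 k) := by
    rw [← hS1.tsum_sub hS2]
    unfold Wfun
    congr 1
    apply tsum_congr
    intro k
    simp only [ht1, ht2]
    rw [sub_mul]
  have hne : 1 - z / a ≠ 0 := by
    intro h
    have h2 : z / a = 1 := (sub_eq_zero.mp h).symm
    rw [h2, norm_one] at hza
    exact lt_irrefl _ hza
  refine ⟨-(Lfun ω ‖a‖ : ℂ) - ∑' k, (t2 k + t3 k), ?_, ?_⟩
  · unfold Afun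
    rw [hS2.tsum_add hS3.summable, hS3.tsum_eq, hW]
    have : -(Lfun ω ‖a‖ : ℂ) - (∑' k, t2 k + (-Complex.log (1 - z / a) - ∑' k, t1 k)) =
        Complex.log (1 - z / a) + -((Lfun ω ‖a‖ : ℂ) - (∑' k, t1 k - ∑' k, t2 k)) := by ring
    rw [this, Complex.exp_add, Complex.exp_log hne]
  · have hb : ‖∑' k, (t2 k + t3 k)‖ ≤ Lfun ω ‖a‖ * C₀ := by
      apply tsum_of_norm_bounded (hs4.hasSum.mul_left (Lfun ω ‖a‖))
      intro k
      have hΔ := Delta_pos hpos hanti hmom k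
      refine (norm_add_le _ _).trans ?_
      rw [mul_add]
      apply add_le_add
      · have h2 := term2_bound hcont hpos hanti hmom hane hσ hz k
        have hmax : max 1 (1 / ‖a‖ ^ 2) = 1 := by
          apply max_eq_left
          have h1a : (1 : ℝ) ≤ ‖a‖ := by linarith
          rw [div_le_one (by positivity)]
          exact one_le_pow₀ h1a
        rw [hmax, mul_one] at h2
        exact h2
      · have hQ := Q_bound hcont hpos hanti hmom hT hd hreg hTa ha k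
        have hQ0 : 0 ≤ ∫ t in Ioi ‖a‖, ω t * t ^ k := by
          apply setIntegral_nonneg measurableSet_Ioi
          intro t ht
          have ht' : (0 : ℝ) < t := hn.trans ht
          have := hpos t ht'.le
          positivity
        simp only [ht3]
        rw [norm_mul, norm_mul, norm_div, norm_pow, Complex.norm_real, Complex.norm_real,
          Real.norm_of_nonneg hQ0, Real.norm_of_nonneg hΔ.le, norm_zpow, zpow_neg, zpow_natCast]
        calc (‖a‖ ^ (k + 1))⁻¹ * (∫ t in Ioi ‖a‖, ω t * t ^ k) * (‖z‖ ^ (k + 1) / Delta ω (k + 1))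
            ≤ (‖a‖ ^ (k + 1))⁻¹ * (Lfun ω ‖a‖ * ‖a‖ ^ (k + 1) *
              (2 ^ (k + 1) + (2 / ω (2 * a₀)) * (Delta ω (k + 1) / a₀ ^ (k + 1)))) *
              (R ^ (k + 1) / Delta ω (k + 1)) := by gcongr
          _ = Lfun ω ‖a‖ * ((2 * R) ^ (k + 1) / Delta ω (k + 1) +
              (2 / ω (2 * a₀)) * (R / a₀) ^ (k + 1)) := by
              rw [mul_pow, div_pow]
              field_simp
    calc ‖-(Lfun ω ‖a‖ : ℂ) - ∑' k, (t2 k + t3 k)‖
        ≤ ‖-(Lfun ω ‖a‖ : ℂ)‖ + ‖∑' k, (t2 k + t3 k)‖ := norm_sub_le _ _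
      _ ≤ Lfun ω ‖a‖ + Lfun ω ‖a‖ * C₀ := by
          rw [norm_neg, Complex.norm_real, Real.norm_of_nonneg hL]
          linarith
      _ = (1 + C₀) * Lfun ω ‖a‖ := by ring

end weight

/-- Let `ω : [0,∞) → (0,∞)` be continuous and nonincreasing with all moments finite, and assume
that for large `t` the quantity `t ω'(t)/ω(t)` exists and is nonincreasing. Let `z_k ≠ 0` be any
sequence of complex numbers with `∑ L(|z_k|) < ∞`. Then on every compact set `K` that contains no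
`z_k` the product `∏ A_ω(z;z_k)` converges uniformly, to a limit without zeros on `K`; the
convergence is absolute and uniform: `∑ sup_K |A_ω(z;z_k) - 1| < ∞`. -/
theorem result (ω : ℝ → ℝ) (hcont : ContinuousOn ω (Ici 0)) (hpos : ∀ t, 0 ≤ t → 0 < ω t)
    (hanti : AntitoneOn ω (Ici 0))
    (hmom : ∀ k : ℕ, IntegrableOn (fun t => ω t * t ^ k) (Ioi 0))
    (hreg : ∃ T > 0, (∀ t ≥ T, DifferentiableAt ℝ ω t) ∧
      AntitoneOn (fun t => t * deriv ω t / ω t) (Ici T))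
    (σ : ℤ) (hσ : σ = -1 ∨ σ = 1)
    (z : ℕ → ℂ) (hz : ∀ k, z k ≠ 0) (hsum : Summable fun k => Lfun ω ‖z k‖)
    (K : Set ℂ) (hK : IsCompact K) (hKz : ∀ k, z k ∉ K) :
    ∃ P : ℂ → ℂ, (∀ w ∈ K, P w ≠ 0) ∧
      TendstoUniformlyOn (fun n w => ∏ k ∈ Finset.range n, Afun σ ω w (z k)) P atTop K ∧
      ∃ u : ℕ → ℝ, Summable u ∧ ∀ k, ∀ w ∈ K, ‖Afun σ ω w (z k) - 1‖ ≤ u k := by
  obtain ⟨T, hT, hd, hreg⟩ := hreg
  have hσ' : σ = 1 ∨ σ = -1 := hσ.symm
  obtain ⟨R, hR, hKR⟩ : ∃ R : ℝ, 0 < R ∧ ∀ w ∈ K, ‖w‖ ≤ R := by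
    obtain ⟨R, hR⟩ := hK.isBounded.exists_norm_le
    exact ⟨max R 1, by positivity, fun w hw => (hR w hw).trans (le_max_left _ _)⟩
  obtain ⟨a₀, ha₀, C, hC, hmain⟩ := main_bound hcont hpos hanti hmom hT hd hreg hσ' hR
  have hLa := L_pos hcont hpos hanti hmom ha₀
  have hev0 : ∀ᶠ k in atTop, a₀ ≤ ‖z k‖ := by
    have h1 := hsum.tendsto_atTop_zero
    filter_upwards [h1.eventually_lt_const hLa] with k hk
    by_contra hcon
    push Not at hcon
    have := L_anti hcont hpos hmom (norm_pos_iff.mpr (hz k)) hcon.le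
    linarith
  have hev1 : ∀ᶠ k in atTop, C * Lfun ω ‖z k‖ ≤ 1 := by
    have h1 := hsum.tendsto_atTop_zero.const_mul C
    rw [mul_zero] at h1
    exact h1.eventually_le_const one_pos
  have hcontA : ∀ k, Continuous (fun w => Afun σ ω w (z k)) := by
    intro k
    unfold Afun
    have := continuous_W hcont hpos hanti hmom (hz k) hσ'
    fun_prop
  have hbd : ∀ᶠ k in atTop, ∀ w ∈ K, ‖Afun σ ω w (z k) - 1‖ ≤ 2 * (C * Lfun ω ‖z k‖) := by
    filter_upwards [hev0, hev1] with k hk0 hk1 w hw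
    obtain ⟨S, hS, hSb⟩ := hmain (z k) hk0 w (hKR w hw)
    rw [hS]
    have := Complex.norm_exp_sub_one_le (hSb.trans hk1)
    linarith
  have hsum2 : Summable (fun k => 2 * (C * Lfun ω ‖z k‖)) := (hsum.mul_left C).mul_left 2
  -- a global summable bound
  obtain ⟨N, hN⟩ := eventually_atTop.mp hbd
  have hB : ∀ k, ∃ B : ℝ, ∀ w ∈ K, ‖Afun σ ω w (z k) - 1‖ ≤ B := by
    intro k
    obtain ⟨B, hB⟩ := (hK.image (((hcontA k).sub continuous_const).norm)).bddAbove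
    exact ⟨B, fun w hw => hB (mem_image_of_mem _ hw)⟩
  choose B hB using hB
  set u : ℕ → ℝ := fun k => if k < N then B k else 2 * (C * Lfun ω ‖z k‖) with hu
  have hus : Summable u := by
    apply (summable_nat_add_iff N).mp
    have h1 := (summable_nat_add_iff N).mpr hsum2
    refine h1.congr fun k => ?_
    simp [hu]
  have hub : ∀ k, ∀ w ∈ K, ‖Afun σ ω w (z k) - 1‖ ≤ u k := by
    intro k w hw
    simp only [hu]
    split_ifs with h
    · exact hB k w hw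
    · exact hN k (not_lt.mp h) w hw
  have hprod := Summable.hasProdUniformlyOn_nat_one_add (f := fun k w => Afun σ ω w (z k) - 1)
    hK hus (Eventually.of_forall hub) (fun k => ((hcontA k).sub continuous_const).continuousOn)
  have hA : ∀ w ∈ K, ∀ k, Afun σ ω w (z k) ≠ 0 := by
    intro w hw k
    unfold Afun
    apply mul_ne_zero _ (Complex.exp_ne_zero _)
    intro h
    have h2 : w / z k = 1 := (sub_eq_zero.mp h).symm
    rw [div_eq_one_iff_eq (hz k)] at h2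
    exact hKz k (h2 ▸ hw)
  refine ⟨fun w => ∏' k, (1 + (Afun σ ω w (z k) - 1)), ?_, ?_, u, hus, hub⟩
  · intro w hw
    exact tprod_one_add_ne_zero_of_summable (f := fun k => Afun σ ω w (z k) - 1)
      (by intro k; simpa using hA w hw k)
      (Summable.of_nonneg_of_le (fun k => norm_nonneg _) (fun k => hub k w hw) hus)
  · have h := hprod.tendstoUniformlyOn_finsetRange
    simpa using h

end Pool.Agent.Results.MP_d393fc_an.WeightedProduct
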